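import Mathlib

/-!
# Polynomial recurrences whose row sums are `m ^ m`: the linear case

For polynomials `P, Q` in two variables over `ℂ` let `S` be the array with `S(0,0)=1`,
`S(0,n)=S(m,0)=0` for `m,n ≥ 1` and `S(m+1,n)=P(m,n) S(m,n)+Q(m,n) S(m,n-1)`.
We show that the pair `P = m`, `Q = m + n` (Shor's pair) is the only pair of polynomials of total
degree at most one whose row sums are `m ^ m`.
-/

namespace Pool.Agent.Results.MP_97c21f_co.LinearPairs

open Finset

/-- The value `P(m,n)` of a polynomial in two variables at a pair of natural numbers. -/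
noncomputable def ev (P : MvPolynomial (Fin 2) ℂ) (m n : ℕ) : ℂ :=
  MvPolynomial.eval ![(m : ℂ), (n : ℂ)] P

/-- The array `S(m,n)` determined by (A), (B), (C). -/
noncomputable def S (P Q : MvPolynomial (Fin 2) ℂ) : ℕ → ℕ → ℂ
  | 0, 0 => 1
  | 0, _ + 1 => 0
  | _ + 1, 0 => 0
  | m + 1, n + 1 => ev P m (n + 1) * S P Q m (n + 1) + ev Q m (n + 1) * S P Q m n

/-- Admissible pairs: all row sums are `m ^ m`. -/
def Admissible (P Q : MvPolynomial (Fin 2) ℂ) : Prop :=
  ∀ m : ℕ, 1 ≤ m → ∑ n ∈ Icc 1 m, S P Q m n = (m : ℂ) ^ m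

/-! ### Basic facts -/

section basics

variable (P Q : MvPolynomial (Fin 2) ℂ)

lemma S_zero_zero : S P Q 0 0 = 1 := by simp [S]
lemma S_zero_succ (n : ℕ) : S P Q 0 (n + 1) = 0 := by simp [S]
lemma S_succ_zero (m : ℕ) : S P Q (m + 1) 0 = 0 := by simp [S]
lemma S_succ_succ (m n : ℕ) : S P Q (m + 1) (n + 1) =
    ev P m (n + 1) * S P Q m (n + 1) + ev Q m (n + 1) * S P Q m n := by simp [S]

lemma S_support : ∀ m n : ℕ, m < n → S P Q m n = 0 := by
  intro m
  induction m with
  | zero =>
    intro n hn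
    obtain ⟨k, rfl⟩ : ∃ k, n = k + 1 := ⟨n - 1, by omega⟩
    exact S_zero_succ P Q k
  | succ m ih =>
    intro n hn
    obtain ⟨k, rfl⟩ : ∃ k, n = k + 1 := ⟨n - 1, by omega⟩
    rw [S_succ_succ, ih (k + 1) (by omega), ih k (by omega)]
    simp

/-- The functional `G ↦ ∑ S(m,n) G(n)`. -/
noncomputable def mu (m : ℕ) (G : ℕ → ℂ) : ℂ := ∑ n ∈ range (m + 1), S P Q m n * G n

lemma mu_eq_Icc (m : ℕ) (hm : 1 ≤ m) (G : ℕ → ℂ) :
    mu P Q m G = ∑ n ∈ Icc 1 m, S P Q m n * G n := by
  obtain ⟨k, rfl⟩ : ∃ k, m = k + 1 := ⟨m - 1, by omega⟩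
  unfold mu
  rw [sum_range_succ', S_succ_zero]
  rw [show Icc 1 (k + 1) = (range (k + 1)).image (fun n => n + 1) from ?_]
  · rw [sum_image (by intro a _ b _ h; exact Nat.succ.inj h)]
    simp
  · ext x
    simp only [mem_Icc, mem_image, mem_range]
    constructor
    · rintro ⟨h1, h2⟩
      exact ⟨x - 1, by omega, by omega⟩
    · rintro ⟨y, hy, rfl⟩
      omega

lemma mu_step (m : ℕ) (hm : 1 ≤ m) (G : ℕ → ℂ) :
    mu P Q (m + 1) G =
      mu P Q m (fun n => ev P m n * G n + ev Q m (n + 1) * G (n + 1)) := by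
  unfold mu
  rw [sum_range_succ' (fun n => S P Q (m + 1) n * G n), S_succ_zero]
  simp only [S_succ_succ]
  have h0 : S P Q m 0 = 0 := by
    obtain ⟨k, rfl⟩ : ∃ k, m = k + 1 := ⟨m - 1, by omega⟩
    exact S_succ_zero P Q k
  have h1 : ∑ k ∈ range (m + 1), ev P m (k + 1) * S P Q m (k + 1) * G (k + 1)
      = ∑ n ∈ range (m + 1), S P Q m n * (ev P m n * G n) := by
    have h2 := sum_range_succ' (fun n => S P Q m n * (ev P m n * G n)) (m + 1)
    have h3 := sum_range_succ (fun n => S P Q m n * (ev P m n * G n)) (m + 1)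
    rw [h0] at h2
    rw [S_support P Q m (m + 1) (by omega)] at h3
    rw [h3] at h2
    have h4 : ∑ k ∈ range (m + 1), ev P m (k + 1) * S P Q m (k + 1) * G (k + 1)
        = ∑ k ∈ range (m + 1), S P Q m (k + 1) * (ev P m (k + 1) * G (k + 1)) :=
      sum_congr rfl (fun k _ => by ring)
    rw [h4]
    linear_combination -h2
  have h5 : ∀ k, (ev P m (k + 1) * S P Q m (k + 1) + ev Q m (k + 1) * S P Q m k) * G (k + 1)
      = ev P m (k + 1) * S P Q m (k + 1) * G (k + 1)
        + S P Q m k * (ev Q m (k + 1) * G (k + 1)) := fun k => by ring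
  simp only [h5, sum_add_distrib, h1, mul_add]
  ring

lemma mu_one (G : ℕ → ℂ) : mu P Q 1 G = ev Q 0 1 * G 1 := by
  unfold mu
  rw [sum_range_succ, sum_range_succ, sum_range_zero]
  rw [S_succ_zero, S_succ_succ, S_zero_succ, S_zero_zero]
  simp

lemma mu_congr (m : ℕ) {F G : ℕ → ℂ} (h : ∀ n, F n = G n) : mu P Q m F = mu P Q m G := by
  rw [show F = G from funext h]

lemma mu_add (m : ℕ) (F G : ℕ → ℂ) :
    mu P Q m (fun n => F n + G n) = mu P Q m F + mu P Q m G := by
  unfold mu
  rw [← sum_add_distrib]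
  exact sum_congr rfl (fun n _ => by ring)

lemma mu_smul (m : ℕ) (c : ℂ) (F : ℕ → ℂ) :
    mu P Q m (fun n => c * F n) = c * mu P Q m F := by
  unfold mu
  rw [mul_sum]
  exact sum_congr rfl (fun n _ => by ring)

end basics

/-! ### Shor's identity -/

/-- The closed form of the future row sums. -/
noncomputable def H (k r : ℕ) (N : ℂ) : ℂ :=
  ∑ i ∈ range (k + 1), (k.descFactorial i : ℂ) * ((r + i).choose i : ℂ) * N ^ (k - i)

/-- Partial sums of the two sides of the recurrence. -/
lemma partial_rec (k r : ℕ) (m : ℂ) (J : ℕ) (hJ : J ≤ k) :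
    ∑ i ∈ range (J + 1), ((k + 1).descFactorial i : ℂ) * ((r + i).choose i : ℂ)
        * (k + m + 1) ^ (k + 1 - i)
      = ∑ i ∈ range (J + 1), (k.descFactorial i : ℂ) * ((r + 1 + i).choose i : ℂ)
        * (k + m + 1) ^ (k - i) * (m + r + 2 + i)
        + (k + m + 1) ^ (k - J) * (k.descFactorial J : ℂ) * ((r + 1 + J).choose J : ℂ)
          * (k - r - 1 - J) := by
  induction J with
  | zero =>
    simp
    ring
  | succ J ih =>
    rw [sum_range_succ, ih (by omega), sum_range_succ _ (J + 1)]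
    have e1 : ((k + 1).descFactorial (J + 1) : ℂ) = (k + 1) * (k.descFactorial J : ℂ) := by
      rw [Nat.succ_descFactorial_succ]
      push_cast
      ring
    have e2 : (k.descFactorial (J + 1) : ℂ) = (k - J) * (k.descFactorial J : ℂ) := by
      rw [Nat.descFactorial_succ]
      push_cast [Nat.cast_sub (show J ≤ k by omega)]
      ring
    have e3 : ((r + 1 + (J + 1)).choose (J + 1) : ℂ) * (J + 1)
        = (r + 2 + J) * ((r + 1 + J).choose J : ℂ) := by
      have h := Nat.add_one_mul_choose_eq (r + 1 + J) J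
      have h' : ((r + 1 + J + 1 : ℕ) : ℂ) * ((r + 1 + J).choose J : ℂ)
          = ((r + 1 + J + 1).choose (J + 1) : ℂ) * ((J + 1 : ℕ) : ℂ) := by
        exact_mod_cast h
      rw [show r + 1 + (J + 1) = r + 1 + J + 1 by ring]
      push_cast at h'
      linear_combination -h'
    have e4 : ((r + (J + 1)).choose (J + 1) : ℂ)
        = ((r + 1 + (J + 1)).choose (J + 1) : ℂ) - ((r + 1 + J).choose J : ℂ) := by
      have h : (r + 1 + (J + 1)).choose (J + 1)
          = (r + 1 + J).choose J + (r + (J + 1)).choose (J + 1) := by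
        rw [show r + 1 + (J + 1) = (r + 1 + J) + 1 by ring, Nat.choose_succ_succ]
        rw [show r + 1 + J = r + (J + 1) by ring]
      rw [h]
      push_cast
      ring
    have e5 : k + 1 - (J + 1) = k - J := by omega
    obtain ⟨d, hd⟩ : ∃ d, k - J = d + 1 := ⟨k - J - 1, by omega⟩
    have e6 : k - (J + 1) = d := by omega
    have e7 : (k : ℂ) = J + d + 1 := by
      have : k = J + d + 1 := by omega
      rw [this]
      push_cast
      ring
    have e8 : (((J : ℕ) + 1 : ℕ) : ℂ) = J + 1 := by push_cast; ring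
    rw [e5, e6, e1, e2, e4, hd, e8]
    generalize ((r + 1 + (J + 1)).choose (J + 1) : ℂ) = A at *
    generalize ((r + 1 + J).choose J : ℂ) = B at *
    generalize (k.descFactorial J : ℂ) = D at *
    have hJ1 : ((J : ℂ) + 1) ≠ 0 := by exact_mod_cast Nat.succ_ne_zero J
    have hA : A = (r + 2 + J) * B / (J + 1) := by
      field_simp
      linear_combination e3
    rw [hA, e7]
    generalize hN : (((J : ℂ) + d + 1) + m + 1) = N
    have hm : m = N - J - d - 2 := by rw [← hN]; ring
    rw [pow_succ]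
    field_simp
    rw [hm]
    ring

lemma H_rec (k r : ℕ) (m : ℂ) :
    H (k + 1) r (k + m + 1)
      = m * H k (r + 1) (k + m + 1) + (r + 2) * H k (r + 2) (k + m + 1) := by
  unfold H
  rw [sum_range_succ _ (k + 1), partial_rec k r m k le_rfl]
  have h1 : ∀ i, ((r + 2 + i).choose i : ℂ) * (r + 2)
      = (r + 2 + i) * ((r + 1 + i).choose i : ℂ) := by
    intro i
    have h := Nat.choose_mul_succ_eq (r + 1 + i) i
    have h' : ((r + 1 + i).choose i : ℂ) * ((r + 1 + i + 1 : ℕ) : ℂ)
        = ((r + 1 + i + 1).choose i : ℂ) * ((r + 1 + i + 1 - i : ℕ) : ℂ) := by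
      exact_mod_cast h
    rw [show r + 1 + i + 1 - i = r + 2 by omega, show r + 1 + i + 1 = r + 2 + i by ring] at h'
    push_cast at h'
    linear_combination -h'
  rw [mul_sum, mul_sum]
  have h2 : ∑ i ∈ range (k + 1), (k.descFactorial i : ℂ) * ((r + 1 + i).choose i : ℂ)
        * (k + m + 1) ^ (k - i) * (m + r + 2 + i)
      = ∑ i ∈ range (k + 1), m * ((k.descFactorial i : ℂ) * ((r + 1 + i).choose i : ℂ)
        * (k + m + 1) ^ (k - i))
        + ∑ i ∈ range (k + 1), ((r : ℂ) + 2) * ((k.descFactorial i : ℂ)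
        * ((r + 2 + i).choose i : ℂ) * (k + m + 1) ^ (k - i)) := by
    rw [← sum_add_distrib]
    refine sum_congr rfl (fun i _ => ?_)
    linear_combination (-(k.descFactorial i : ℂ) * (k + m + 1) ^ (k - i)) * h1 i
  rw [h2]
  have h3 : (((k + 1).descFactorial (k + 1) : ℕ) : ℂ) = (k + 1) * (k.descFactorial k : ℂ) := by
    rw [Nat.succ_descFactorial_succ]
    push_cast
    ring
  have h4 : ((r + (k + 1)).choose (k + 1) : ℂ) * (k + 1)
      = (r + 1) * ((r + 1 + k).choose k : ℂ) := by
    have h := Nat.choose_succ_right_eq (r + (k + 1)) k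
    have h' : ((r + (k + 1)).choose (k + 1) : ℂ) * ((k + 1 : ℕ) : ℂ)
        = ((r + (k + 1)).choose k : ℂ) * ((r + (k + 1) - k : ℕ) : ℂ) := by
      exact_mod_cast h
    rw [show r + (k + 1) - k = r + 1 by omega] at h'
    rw [show r + 1 + k = r + (k + 1) by ring]
    push_cast at h'
    linear_combination h'
  rw [h3, Nat.sub_self, Nat.sub_self]
  linear_combination (k.descFactorial k : ℂ) * h4

lemma H_one_partial (k J : ℕ) (hJ : J ≤ k) :
    ∑ i ∈ range (J + 1), (k.descFactorial i : ℂ) * ((1 + i).choose i : ℂ)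
      * ((k : ℂ) + 1) ^ (k - i)
      = ((k : ℂ) + 1) ^ (k + 1) - (k.descFactorial J : ℂ) * (k - J) * ((k : ℂ) + 1) ^ (k - J) := by
  induction J with
  | zero =>
    simp
    ring
  | succ J ih =>
    rw [sum_range_succ, ih (by omega)]
    have e2 : (k.descFactorial (J + 1) : ℂ) = (k - J) * (k.descFactorial J : ℂ) := by
      rw [Nat.descFactorial_succ]
      push_cast [Nat.cast_sub (show J ≤ k by omega)]
      ring
    have e3 : ((1 + (J + 1)).choose (J + 1) : ℂ) = J + 2 := by
      rw [show 1 + (J + 1) = (J + 1) + 1 by ring, Nat.choose_succ_self_right]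
      push_cast
      ring
    obtain ⟨d, hd⟩ : ∃ d, k - J = d + 1 := ⟨k - J - 1, by omega⟩
    have e6 : k - (J + 1) = d := by omega
    have e7 : (k : ℂ) = J + d + 1 := by
      have : k = J + d + 1 := by omega
      rw [this]
      push_cast
      ring
    rw [e2, e3, e6, hd, pow_succ]
    push_cast
    linear_combination (k.descFactorial J : ℂ) * (k - J) * (k + 1) ^ d * e7 * 0
      + 0 * e7

lemma H_one (k : ℕ) : H k 1 (k + 1) = ((k : ℂ) + 1) ^ (k + 1) := by
  unfold H
  rw [H_one_partial k k le_rfl]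
  ring

/-- Shor's pair is admissible. -/
lemma shor_admissible :
    Admissible (MvPolynomial.X 0) (MvPolynomial.X 0 + MvPolynomial.X 1) := by
  have hP : ∀ m n : ℕ, ev (MvPolynomial.X 0) m n = m := by
    intro m n
    simp [ev]
  have hQ : ∀ m n : ℕ, ev (MvPolynomial.X 0 + MvPolynomial.X 1) m n = m + n := by
    intro m n
    simp [ev]
  have key : ∀ k m : ℕ,
      mu (MvPolynomial.X 0) (MvPolynomial.X 0 + MvPolynomial.X 1) (m + 1)
        (fun n => H k (m + n) ((k : ℂ) + m + 1))
      = mu (MvPolynomial.X 0) (MvPolynomial.X 0 + MvPolynomial.X 1) (m + 1 + k)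
        (fun _ => 1) := by
    intro k
    induction k with
    | zero =>
      intro m
      refine mu_congr _ _ _ (fun n => ?_)
      simp [H]
    | succ k ih =>
      intro m
      have h1 := ih (m + 1)
      rw [show m + 1 + (k + 1) = m + 1 + 1 + k by ring, ← h1, mu_step _ _ (m + 1) (by omega)]
      refine mu_congr _ _ _ (fun n => ?_)
      have h2 := H_rec k (m + n) ((m : ℂ) + 1)
      rw [hP, hQ]
      have e1 : (((k + 1 : ℕ) : ℂ) + m + 1) = (k : ℂ) + (m + 1) + 1 := by push_cast; ring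
      have e2 : ((k : ℂ) + ((m + 1 : ℕ) : ℂ) + 1) = (k : ℂ) + (m + 1) + 1 := by push_cast; ring
      have e3 : m + 1 + n = m + n + 1 := by ring
      have e4 : m + 1 + (n + 1) = m + n + 2 := by ring
      rw [e1, e2, e3, e4, h2]
      push_cast
      ring
  intro m hm
  obtain ⟨k, rfl⟩ : ∃ k, m = k + 1 := ⟨m - 1, by omega⟩
  have h1 := key k 0
  rw [show 0 + 1 + k = k + 1 by ring, show (0 + 1 : ℕ) = 1 by rfl, mu_one,
    mu_eq_Icc _ _ (k + 1) (by omega), hQ] at h1
  simp only [mul_one] at h1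
  rw [← h1]
  have e1 : ((k : ℂ) + ((0 : ℕ) : ℂ) + 1) = (k : ℂ) + 1 := by push_cast; ring
  rw [e1, show (0 + 1 : ℕ) = 1 by rfl, H_one]
  push_cast
  ring

/-! ### The moments of a linear pair -/

/-- The falling factorials `(n-1)(n-2)...(n-j)`. -/
noncomputable def G (j n : ℕ) : ℂ := ∏ i ∈ range j, ((n : ℂ) - 1 - i)

lemma G_zero (n : ℕ) : G 0 n = 1 := by simp [G]

lemma G_succ (j n : ℕ) : G (j + 1) n = G j n * ((n : ℂ) - 1 - j) := by
  simp [G, prod_range_succ]

lemma G_shift (j n : ℕ) : G (j + 1) (n + 1) = (n : ℂ) * G j n := by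
  unfold G
  rw [prod_range_succ']
  rw [mul_comm]
  congr 1
  · push_cast
    ring
  · refine prod_congr rfl (fun i _ => ?_)
    push_cast
    ring

lemma G_one_zero (j : ℕ) : G (j + 1) 1 = 0 := by
  rw [show (1 : ℕ) = 0 + 1 by rfl, G_shift]
  simp

section linear

variable (P Q : MvPolynomial (Fin 2) ℂ) (a b c e f g : ℂ)
  (hP : ∀ m n : ℕ, ev P m n = a + b * m + c * n)
  (hQ : ∀ m n : ℕ, ev Q m n = e + f * m + g * n)

include hP hQ

lemma K_rec_zero (m : ℕ) (hm : 1 ≤ m) :
    mu P Q (m + 1) (G 0) = (a + b * m + e + f * m + g + (c + g)) * mu P Q m (G 0)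
      + (c + g) * mu P Q m (G 1) := by
  rw [mu_step P Q m hm, ← mu_smul, ← mu_smul, ← mu_add]
  refine mu_congr _ _ _ (fun n => ?_)
  rw [hP, hQ, G_succ, G_zero, G_zero]
  push_cast
  ring

lemma K_rec_succ (j m : ℕ) (hm : 1 ≤ m) :
    mu P Q (m + 1) (G (j + 1)) =
      (a + b * m + c * (j + 2) + e + f * m + g + g * (2 * j + 3)) * mu P Q m (G (j + 1))
      + (c + g) * mu P Q m (G (j + 2))
      + (j + 1) * (e + f * m + g + g * (j + 1)) * mu P Q m (G j) := by
  rw [mu_step P Q m hm, ← mu_smul, ← mu_smul, ← mu_smul, ← mu_add, ← mu_add]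
  refine mu_congr _ _ _ (fun n => ?_)
  rw [hP, hQ, G_shift, G_succ (j + 1), G_succ j]
  push_cast
  ring

end linear

/-! ### The elimination -/

lemma elimination (d s h f g w φ γ X Y Z : ℂ)
    (hw : w = h + φ + γ) (hφ : φ = h * f) (hγ : γ = h * g) (hs : s = h + g)
    (e1 : w = 11 - 4 * d)
    (e2 : 148 - 54 * d = (4 + d + s) * w + 4 * (w + φ))
    (hX : X = 2 * (w + φ + γ) * w)
    (e3 : 2101 - 768 * d = (4 + 2 * d + s) * (148 - 54 * d) + X + 27 * (w + 2 * φ))
    (hY : Y = (4 + 2 * d + 2 * s) * X + 2 * (w + 2 * φ + γ) * (148 - 54 * d))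
    (e4 : 34156 - 12500 * d = (4 + 3 * d + s) * (2101 - 768 * d) + Y + 256 * (w + 3 * φ))
    (hZ : Z = (4 + 3 * d + 2 * s) * Y + 3 * (w + 2 * φ + 2 * γ) * X
      + 2 * (w + 3 * φ + γ) * (2101 - 768 * d))
    (e5 : 636919 - 233280 * d = (4 + 4 * d + s) * (34156 - 12500 * d) + Z
      + 3125 * (w + 4 * φ)) :
    d = 2 ∧ h = 1 ∧ f = 1 ∧ g = 1 := by
  have hφ' : φ = d * s + d ^ 2 - 11 / 4 * s - 33 / 4 * d + 15 := by
    rw [e1] at e2
    linear_combination (-1 / 4) * e2
  have hX' : X = 54 * d ^ 2 + 1 / 2 * s - 589 / 2 * d + 402 := by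
    rw [e1, hφ'] at e3
    linear_combination (-1) * e3
  have hwγ : 2 * w * γ = X - 2 * w ^ 2 - 2 * w * φ := by
    rw [hX]; ring
  -- the three polynomial relations
  have E6 : 4 * d * s ^ 2 + 20 * d ^ 2 * s + 28 * d ^ 3 - 11 * s ^ 2 - 104 * d * s
      - 213 * d ^ 2 + 135 * s + 537 * d - 448 = 0 := by
    have h1 : w * (34156 - 12500 * d) = w * ((4 + 3 * d + s) * (2101 - 768 * d))
        + (w * (4 + 2 * d + 2 * s) * X + (2 * w ^ 2 + 4 * w * φ + 2 * w * γ)
          * (148 - 54 * d)) + 256 * w * (w + 3 * φ) := by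
      rw [hY] at e4
      linear_combination w * e4
    rw [hwγ, hX', hφ', e1] at h1
    linear_combination h1
  have E7 : -12 * d ^ 4 + 88 * d * s ^ 2 + 434 * d ^ 2 * s + 718 * d ^ 3 - 971 / 4 * s ^ 2
      - 4507 / 2 * d * s - 19887 / 4 * d ^ 2 + 2919 * s + 12069 * d - 9832 = 0 := by
    have hY' : Y = 34156 - 12500 * d - (4 + 3 * d + s) * (2101 - 768 * d)
        - 256 * (w + 3 * φ) := by linear_combination -e4
    have h1 : w * (636919 - 233280 * d) = w * ((4 + 4 * d + s) * (34156 - 12500 * d))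
        + (w * (4 + 3 * d + 2 * s) * Y + 3 * (w ^ 2 + 2 * w * φ + 2 * w * γ) * X
          + (2 * w ^ 2 + 6 * w * φ + 2 * w * γ) * (2101 - 768 * d))
        + 3125 * w * (w + 4 * φ) := by
      rw [hZ] at e5
      linear_combination w * e5
    rw [hwγ, hY', hX', hφ', e1] at h1
    linear_combination h1
  have EG : 16 * d ^ 3 * s + 36 * d ^ 4 - 4 * d * s ^ 2 - 162 * d ^ 2 * s - 446 * d ^ 3
      + 45 / 4 * s ^ 2 + 1045 / 2 * d * s + 8121 / 4 * d ^ 2 - 544 * s - 4044 * d
      + 2984 = 0 := by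
    have h2 : 2 * w * h = 4 * w ^ 2 - X := by
      rw [hX]
      linear_combination (-2 * w) * hw
    have h3 : 2 * w * (2 * w * γ) = (2 * w * h) * (2 * w * s - 2 * w * h) := by
      rw [hγ, hs]; ring
    rw [hwγ, h2, hX', hφ', e1] at h3
    linear_combination h3
  have h4 : (d - 2) * ((4 * d - 11) * ((d - 3) * (d - 3))) = 0 := by
    linear_combination ((-10/9)*d^3*s^1 + (1225/54)*d^1*s^2 + (1747/27)*d^2*s^1
      + (-17/6)*d^3*s^0 + (-3437/54)*d^0*s^2 + (-14317/54)*d^1*s^1 + (11891/72)*d^2*s^0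
      + (12485/48)*d^0*s^1 + (-13005/16)*d^1*s^0 + (2091/2)*d^0*s^0) * E6
      + ((-55/54)*d^1*s^2 + (-70/27)*d^2*s^1 + (617/216)*d^0*s^2 + (613/54)*d^1*s^1
      + (-119/18)*d^2*s^0 + (-23/2)*d^0*s^1 + (839/24)*d^1*s^0 + (-277/6)*d^0*s^0) * E7
      + ((5/18)*d^1*s^2 + (-43/72)*d^0*s^2 + (1/6)*d^1*s^1 + (-1/12)*d^0*s^1
      + (-41/24)*d^1*s^0 + (59/12)*d^0*s^0) * EG
  rcases mul_eq_zero.mp h4 with h5 | h5
  · -- `d = 2`
    have hd : d = 2 := by linear_combination h5
    subst hd
    have hs2 : s = 2 := by linear_combination (-13 / 137) * E6 + (-12 / 137) * EG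
    subst hs2
    have hφ1 : φ = 1 := by rw [hφ']; norm_num
    have hX1 : X = 30 := by rw [hX']; norm_num
    have hw1 : w = 3 := by rw [e1]; norm_num
    have hγ1 : γ = 1 := by
      rw [hX1, hφ1, hw1] at hX
      linear_combination (-1 / 6) * hX
    have hh : h = 1 := by
      rw [hw1, hφ1, hγ1] at hw
      linear_combination -hw
    subst hh
    refine ⟨rfl, rfl, ?_, ?_⟩
    · rw [hφ1] at hφ; linear_combination -hφ
    · rw [hγ1] at hγ; linear_combination -hγ
  · exfalso
    rcases mul_eq_zero.mp h5 with h6 | h6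
    · -- `d = 11 / 4`
      have hd : d = 11 / 4 := by linear_combination (1 / 4) * h6
      subst hd
      have hs2 : s = -1 := by linear_combination 4 * E6
      subst hs2
      have hφ1 : φ = -1 / 8 := by rw [hφ']; norm_num
      have hX1 : X = 0 := by rw [hX']; norm_num
      have hw1 : w = 0 := by rw [e1]; norm_num
      rw [hX1, hw1, hφ1] at hY
      rw [hY, hw1, hφ1] at e4
      have hγ1 : γ = -1 / 2 := by linear_combination e4
      have hh : h = 5 / 8 := by
        rw [hw1, hφ1, hγ1] at hw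
        linear_combination -hw
      have hg : g = -1 - 5 / 8 := by rw [hh] at hs; linear_combination -hs
      rw [hγ1, hh, hg] at hγ
      norm_num at hγ
    · -- `d = 3`
      have hd : d = 3 := by
        rcases mul_eq_zero.mp h6 with h7 | h7 <;> linear_combination h7
      subst hd
      have hs2 : s = -1 := by linear_combination (-85 / 3) * E6 + (4 / 3) * E7
      subst hs2
      have hφ1 : φ = -1 := by rw [hφ']; norm_num
      have hX1 : X = 4 := by rw [hX']; norm_num
      have hw1 : w = -1 := by rw [e1]; norm_num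
      have hγ1 : γ = 0 := by
        rw [hX1, hφ1, hw1] at hX
        linear_combination (1 / 2) * hX
      have hh : h = 0 := by
        rw [hw1, hφ1, hγ1] at hw
        linear_combination -hw
      rw [hφ1, hh] at hφ
      norm_num at hφ

/-- A polynomial of total degree at most one. -/
lemma linear_form (P : MvPolynomial (Fin 2) ℂ) (h : P.totalDegree ≤ 1) :
    P = MvPolynomial.C (P.coeff 0) + MvPolynomial.C (P.coeff (Finsupp.single 0 1))
      * MvPolynomial.X 0 + MvPolynomial.C (P.coeff (Finsupp.single 1 1))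
      * MvPolynomial.X 1 := by
  classical
  ext t
  simp only [MvPolynomial.coeff_add, MvPolynomial.coeff_C_mul, MvPolynomial.coeff_C,
    MvPolynomial.coeff_X]
  by_cases h0 : t = 0
  · subst h0
    simp
  by_cases h1 : Finsupp.single 0 1 = t
  · subst h1
    simp [Finsupp.single_eq_single_iff]
    exact fun h => (h0 h.symm).elim
  by_cases h2 : Finsupp.single 1 1 = t
  · subst h2
    simp [Finsupp.single_eq_single_iff]
    exact fun h => (h0 h.symm).elim
  rw [if_neg (fun h => h0 h.symm), if_neg h1, if_neg h2]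
  simp only [mul_zero, add_zero]
  by_contra hne
  have h3 : t ∈ P.support := MvPolynomial.mem_support_iff.mpr hne
  have h4 := MvPolynomial.le_totalDegree h3
  have h5 : (t.sum fun _ e => e) = t 0 + t 1 := by
    rw [Finsupp.sum_fintype _ _ (fun _ => rfl)]
    simp
  rw [h5] at h4
  have h6 : t 0 + t 1 ≤ 1 := h4.trans h
  rcases Nat.lt_or_ge 0 (t 0) with h7 | h7
  · apply h1
    ext i
    fin_cases i
    · simp
      omega
    · simp
      omega
  · rcases Nat.lt_or_ge 0 (t 1) with h8 | h8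
    · apply h2
      ext i
      fin_cases i
      · simp
        omega
      · simp
        omega
    · apply h0
      ext i
      fin_cases i
      · simp
        omega
      · simp
        omega

/-- **Main theorem.** Among all pairs of polynomials of total degree at most one, Shor's pair
`P = m`, `Q = m + n` is the only admissible one. -/
theorem result (P Q : MvPolynomial (Fin 2) ℂ) (hP : P.totalDegree ≤ 1)
    (hQ : Q.totalDegree ≤ 1) :
    Admissible P Q ↔
      P = MvPolynomial.X 0 ∧ Q = MvPolynomial.X 0 + MvPolynomial.X 1 := by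
  constructor
  swap
  · rintro ⟨rfl, rfl⟩
    exact shor_admissible
  intro hadm
  have fP := linear_form P hP
  have fQ := linear_form Q hQ
  generalize P.coeff 0 = a at fP
  generalize P.coeff (Finsupp.single 0 1) = b at fP
  generalize P.coeff (Finsupp.single 1 1) = c at fP
  generalize Q.coeff 0 = e at fQ
  generalize Q.coeff (Finsupp.single 0 1) = f at fQ
  generalize Q.coeff (Finsupp.single 1 1) = g at fQ
  have vP : ∀ m n : ℕ, ev P m n = a + b * m + c * n := by
    intro m n
    rw [fP]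
    simp [ev]
  have vQ : ∀ m n : ℕ, ev Q m n = e + f * m + g * n := by
    intro m n
    rw [fQ]
    simp [ev]
  have k0 : ∀ m : ℕ, 1 ≤ m → mu P Q m (G 0) = (m : ℂ) ^ m := by
    intro m hm
    rw [mu_eq_Icc P Q m hm, ← hadm m hm]
    refine sum_congr rfl (fun n _ => ?_)
    rw [G_zero, mul_one]
  have a1 : e + g = 1 := by
    have h := k0 1 le_rfl
    rw [mu_one, vQ, G_zero] at h
    push_cast at h
    linear_combination h
  have kz : ∀ j : ℕ, mu P Q 1 (G (j + 1)) = 0 := by
    intro j
    rw [mu_one, G_one_zero, mul_zero]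
  have r0 := K_rec_zero P Q a b c e f g vP vQ
  have rs := K_rec_succ P Q a b c e f g vP vQ
  have K11 := kz 0
  have K21 := kz 1
  have K31 := kz 2
  have K41 := kz 3
  have K51 := kz 4
  have b1 := r0 1 (by norm_num)
  have b2 := r0 2 (by norm_num)
  have b3 := r0 3 (by norm_num)
  have b4 := r0 4 (by norm_num)
  have b5 := r0 5 (by norm_num)
  have b6 := r0 6 (by norm_num)
  have c1 := rs 0 1 (by norm_num)
  have c2 := rs 0 2 (by norm_num)
  have c3 := rs 0 3 (by norm_num)
  have c4 := rs 0 4 (by norm_num)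
  have c5 := rs 0 5 (by norm_num)
  have d1 := rs 1 1 (by norm_num)
  have d2 := rs 1 2 (by norm_num)
  have d3 := rs 1 3 (by norm_num)
  have d4 := rs 1 4 (by norm_num)
  have x1 := rs 2 1 (by norm_num)
  have x2 := rs 2 2 (by norm_num)
  have x3 := rs 2 3 (by norm_num)
  have y1 := rs 3 1 (by norm_num)
  have y2 := rs 3 2 (by norm_num)
  have z1 := rs 4 1 (by norm_num)
  have k01 := k0 1 (by norm_num)
  have k02 := k0 2 (by norm_num)
  have k03 := k0 3 (by norm_num)
  have k04 := k0 4 (by norm_num)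
  have k05 := k0 5 (by norm_num)
  have k06 := k0 6 (by norm_num)
  have k07 := k0 7 (by norm_num)
  norm_num at b1 b2 b3 b4 b5 b6 c1 c2 c3 c4 c5 d1 d2 d3 d4 x1 x2 x3 y1 y2 z1
  norm_num at K11 K21 K31 K41 K51 k01 k02 k03 k04 k05 k06 k07
  have K61 : mu P Q 1 (G 6) = 0 := kz 5
  rw [k02, k01, K11] at b1
  have t4 : a + b + e + f + g + (c + g) = 4 := by linear_combination -b1
  have K12 : mu P Q 2 (G 1) = e + f + g + g := by
    rw [K11, K21, k01] at c1
    linear_combination c1
  have K22 : mu P Q 2 (G 2) = 0 := by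
    rw [K21, K31, K11] at d1
    linear_combination d1
  have K32 : mu P Q 2 (G 3) = 0 := by
    rw [K31, K41, K21] at x1
    linear_combination x1
  have K42 : mu P Q 2 (G 4) = 0 := by
    rw [K41, K51, K31] at y1
    linear_combination y1
  have K52 : mu P Q 2 (G 5) = 0 := by
    rw [K51, K61, K41] at z1
    linear_combination z1
  have K33 : mu P Q 3 (G 3) = 0 := by
    rw [K32, K42, K22] at x2
    linear_combination x2
  have K43 : mu P Q 3 (G 4) = 0 := by
    rw [K42, K52, K32] at y2
    linear_combination y2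
  rw [k03, k02, K12] at b2
  rw [k04, k03] at b3
  rw [k05, k04] at b4
  rw [k06, k05] at b5
  rw [k07, k06] at b6
  rw [K12, K22, k02] at c2
  rw [k03] at c3
  rw [k04] at c4
  rw [k05] at c5
  rw [K22, K32, K12] at d2
  rw [K33] at d3
  rw [K33, K43] at x3
  have n13 : (c + g) * mu P Q 3 (G 1) = 148 - 54 * (b + f) := by
    linear_combination -b3 - 27 * t4
  have n14 : (c + g) * mu P Q 4 (G 1) = 2101 - 768 * (b + f) := by
    linear_combination -b4 - 256 * t4
  have n15 : (c + g) * mu P Q 5 (G 1) = 34156 - 12500 * (b + f) := by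
    linear_combination -b5 - 3125 * t4
  have n16 : (c + g) * mu P Q 6 (G 1) = 636919 - 233280 * (b + f) := by
    linear_combination -b6 - 46656 * t4
  have hfin := elimination (b + f) (c + 2 * g) (c + g) f g ((c + g) * (e + f + g + g))
    ((c + g) * f) ((c + g) * g) ((c + g) ^ 2 * mu P Q 3 (G 2)) ((c + g) ^ 2 * mu P Q 4 (G 2))
    ((c + g) ^ 2 * mu P Q 5 (G 2))
    (by linear_combination (c + g) * a1) rfl rfl (by ring)
    (by linear_combination -b2 - 4 * t4)
    (by linear_combination (c + g) * c2 - n13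
          + ((c + g) * (e + f + g + g)) * t4)
    (by linear_combination (c + g) ^ 2 * d2)
    (by linear_combination (c + g) * c3 - n14
          + (a + b + e + f + g + (c + g) + 2 * (b + f) + (c + 2 * g)) * n13
          + (148 - 54 * (b + f)) * t4)
    (by linear_combination (c + g) ^ 2 * d3 + ((c + g) ^ 2 * mu P Q 3 (G 2)) * t4
          + 2 * ((c + g) * (e + f + g + g) + 2 * ((c + g) * f) + (c + g) * g) * n13)
    (by linear_combination (c + g) * c4 - n15
          + (a + b + e + f + g + (c + g) + 3 * (b + f) + (c + 2 * g)) * n14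
          + (2101 - 768 * (b + f)) * t4)
    (by linear_combination (c + g) ^ 2 * d4 + ((c + g) ^ 2 * mu P Q 4 (G 2)) * t4
          + (c + g) ^ 3 * x3
          + 2 * ((c + g) * (e + f + g + g) + 3 * ((c + g) * f) + (c + g) * g) * n14)
    (by linear_combination (c + g) * c5 - n16
          + (a + b + e + f + g + (c + g) + 4 * (b + f) + (c + 2 * g)) * n15
          + (34156 - 12500 * (b + f)) * t4)
  obtain ⟨q1, q2, q3, q4⟩ := hfin
  have hc : c = 0 := by linear_combination q2 - q4
  have hb : b = 1 := by linear_combination q1 - q3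
  have he : e = 0 := by linear_combination a1 - q4
  have ha : a = 0 := by
    rw [hc, hb, he, q3, q4] at t4
    linear_combination t4
  rw [fP, fQ, ha, hb, hc, he, q3, q4]
  simp

end Pool.Agent.Results.MP_97c21f_co.LinearPairs
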